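import Mathlib
import Pool.Agent.W186.AI.Spec

set_option autoImplicit false

namespace Pool.Agent.W571.AI.GD1

open Pool.Agent.W186.AI Complex H370.DG

lemma hasDerivAt_g {s : ℂ} (hs : 1 < s.re) :
    HasDerivAt g (1 / s + 1 / (s - 1) - (1 / 2) * ((Real.log Real.pi : ℝ) : ℂ) +
      (-(1 / (s / 2)) - 1 / (s / 2 + 1) + ∑' n, gd n (s / 2)) * (1 / 2)) s := by
  have h0 : HasDerivAt (fun z : ℂ => log z) (1 / s) s :=
    HasDerivAt.clog (hasDerivAt_id s) (Or.inl (by linarith))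
  have h1 : HasDerivAt (fun z : ℂ => log (z - 1)) (1 / (s - 1)) s :=
    HasDerivAt.clog ((hasDerivAt_id s).sub_const _) (Or.inl (by simp; linarith))
  have h2 : HasDerivAt (fun z : ℂ => z / 2 * ((Real.log Real.pi : ℝ) : ℂ))
      ((1 / 2) * ((Real.log Real.pi : ℝ) : ℂ)) s :=
    ((hasDerivAt_id s).div_const 2).mul_const _
  have hre : 0 < (s / 2).re := by
    rw [show s / 2 = ((1 / 2 : ℝ) : ℂ) * s by push_cast; ring, re_ofReal_mul]
    linarith
  have h3 : HasDerivAt (fun z : ℂ => lG (z / 2))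
      ((-(1 / (s / 2)) - 1 / (s / 2 + 1) + ∑' n, gd n (s / 2)) * (1 / 2)) s :=
    HasDerivAt.comp s (hasDerivAt_lG hre) ((hasDerivAt_id s).div_const 2)
  exact ((h0.add h1).sub h2).add h3

lemma norm_log_le {w : ℂ} (h1 : 1 / 2 ≤ ‖w‖) (h2 : ‖w‖ ≤ 5 / 2) :
    ‖log w‖ ≤ 3 / 2 + Real.pi := by
  have hpos : 0 < ‖w‖ := by linarith
  have e : log w = ((Real.log ‖w‖ : ℝ) : ℂ) + (arg w : ℂ) * I := by
    rw [log]
  rw [e]
  refine (norm_add_le _ _).trans (add_le_add ?_ ?_)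
  · rw [Complex.norm_real, Real.norm_eq_abs, abs_le]
    constructor
    · have := Real.one_sub_inv_le_log_of_pos hpos
      have h3 : ‖w‖⁻¹ ≤ 2 := by
        rw [inv_le_comm₀ hpos (by norm_num)]
        linarith
      linarith
    · have := Real.log_le_sub_one_of_pos hpos
      linarith
  · rw [norm_mul, norm_I, mul_one, Complex.norm_real, Real.norm_eq_abs]
    exact abs_arg_le_pi w

theorem main : S_GD1 := by
  refine ⟨1 + 1 + |Real.log Real.pi| + 1 + 1 + (3 / 2 + Real.pi) +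
    ∑' n : ℕ, 1 / ((n : ℝ) + 1) ^ 2, ?_⟩
  intro s hs h
  have hre : 0 < (s / 2).re := by
    rw [show s / 2 = ((1 / 2 : ℝ) : ℂ) * s by push_cast; ring, re_ofReal_mul]
    linarith
  have hre2 : (s / 2).re = s.re / 2 := by
    rw [show s / 2 = ((1 / 2 : ℝ) : ℂ) * s by push_cast; ring, re_ofReal_mul]
    ring
  have hn : 1 ≤ ‖s‖ := hs.le.trans (re_le_norm s)
  have hs0 : s ≠ 0 := by
    intro h0
    rw [h0] at hs
    simp at hs
    linarith
  have hn1 : 1 ≤ ‖s - 1‖ := by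
    rcases h with h | h
    · refine le_trans ?_ (re_le_norm _)
      rw [sub_re, one_re]
      linarith
    · refine le_trans ?_ (abs_im_le_norm _)
      simpa using h
  have hn2 : 1 ≤ ‖s / 2 + 1‖ := by
    refine le_trans ?_ (re_le_norm _)
    rw [add_re, one_re]
    linarith
  have b1 : ‖1 / s‖ ≤ 1 := by
    rw [norm_div, norm_one, div_le_iff₀ (by linarith)]
    linarith
  have b2 : ‖1 / (s - 1)‖ ≤ 1 := by
    rw [norm_div, norm_one, div_le_iff₀ (by linarith)]
    linarith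
  have b3 : ‖(1 / 2 : ℂ) * ((Real.log Real.pi : ℝ) : ℂ)‖ ≤ |Real.log Real.pi| := by
    rw [norm_mul, Complex.norm_real, Real.norm_eq_abs]
    have : ‖(1 / 2 : ℂ)‖ = 1 / 2 := by norm_num
    rw [this]
    have := abs_nonneg (Real.log Real.pi)
    linarith
  have b4 : ‖1 / (s / 2) * (1 / 2)‖ ≤ 1 := by
    have : 1 / (s / 2) * (1 / 2) = 1 / s := by
      field_simp
    rw [this]
    exact b1
  have hhalf : ‖(1 / 2 : ℂ)‖ = 1 / 2 := by norm_num
  have b5 : ‖1 / (s / 2 + 1) * (1 / 2)‖ ≤ 1 := by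
    rw [norm_mul, hhalf, norm_div, norm_one]
    have : 1 / ‖s / 2 + 1‖ ≤ 1 := by
      rw [div_le_iff₀ (by linarith)]
      linarith
    linarith
  have hw0 : 0 < (2 / s).re := by
    rw [div_re]
    have : 0 < normSq s := normSq_pos.mpr hs0
    simp only [re_ofNat, im_ofNat, zero_mul, zero_div, add_zero]
    positivity
  have hwre : 1 / 2 < (1 / 2 + 2 / s).re := by
    rw [add_re]
    have : ((1 / 2 : ℂ)).re = 1 / 2 := by norm_num
    rw [this]
    linarith
  have hwn : ‖1 / 2 + 2 / s‖ ≤ 5 / 2 := by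
    refine (norm_add_le _ _).trans ?_
    rw [hhalf, norm_div]
    have : ‖(2 : ℂ)‖ / ‖s‖ ≤ 2 := by
      rw [div_le_iff₀ (by linarith)]
      simp
      linarith
    linarith
  have hlog : log (s / 2 + 2) = log s + log (1 / 2 + 2 / s) := by
    rw [show s / 2 + 2 = s * (1 / 2 + 2 / s) by field_simp]
    apply log_mul hs0 (by intro h; rw [h] at hwre; simp at hwre; linarith)
    have a1 := abs_arg_lt_pi_div_two_iff.mpr (Or.inl (show 0 < s.re by linarith))
    have a2 := abs_arg_lt_pi_div_two_iff.mpr (Or.inl (show 0 < (1 / 2 + 2 / s).re by linarith))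
    rw [abs_lt] at a1 a2
    constructor <;> linarith [a1.1, a1.2, a2.1, a2.2]
  have b6 : ‖log (1 / 2 + 2 / s) * (1 / 2)‖ ≤ 3 / 2 + Real.pi := by
    rw [norm_mul, hhalf]
    have h1 := norm_log_le (w := 1 / 2 + 2 / s) (hwre.le.trans (re_le_norm _)) hwn
    have h2 := norm_nonneg (log (1 / 2 + 2 / s))
    linarith
  have b7 : ‖(∑' n, er n (s / 2)) * (1 / 2)‖ ≤ ∑' n : ℕ, 1 / ((n : ℝ) + 1) ^ 2 := by
    rw [norm_mul, hhalf]
    have h1 := norm_tsum_er hre
    have h2 := norm_nonneg (∑' n, er n (s / 2))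
    linarith
  have e : deriv g s - log s / 2 = 1 / s + 1 / (s - 1) - (1 / 2) * ((Real.log Real.pi : ℝ) : ℂ) -
      1 / (s / 2) * (1 / 2) - 1 / (s / 2 + 1) * (1 / 2) + log (1 / 2 + 2 / s) * (1 / 2) +
      (∑' n, er n (s / 2)) * (1 / 2) := by
    rw [(hasDerivAt_g hs).deriv, tsum_gd hre, hlog]
    ring
  rw [e]
  refine (norm_add_le _ _).trans (add_le_add ?_ b7)
  refine (norm_add_le _ _).trans (add_le_add ?_ b6)
  refine (norm_sub_le _ _).trans (add_le_add ?_ b5)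
  refine (norm_sub_le _ _).trans (add_le_add ?_ b4)
  refine (norm_sub_le _ _).trans (add_le_add ?_ b3)
  exact (norm_add_le _ _).trans (add_le_add b1 b2)

end Pool.Agent.W571.AI.GD1
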