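import Mathlib
import Pool.Agent.W186.AI.Spec

set_option autoImplicit false

namespace Pool.Agent.W571.AI.RAN

open Pool.Agent.W186.AI Complex Filter Topology Set
open scoped ContDiff

/-- the affine map -/
noncomputable def L (q : ℝ × ℝ) : ℂ := 1 / 2 + (q.1 : ℂ) + I * (q.2 : ℂ)

noncomputable def L' : ℝ × ℝ →L[ℝ] ℂ :=
  ofRealCLM.comp (ContinuousLinearMap.fst ℝ ℝ ℝ) +
    I • (ofRealCLM.comp (ContinuousLinearMap.snd ℝ ℝ ℝ))

lemma L_eq (q : ℝ × ℝ) : L q = 1 / 2 + L' q := by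
  simp [L, L']
  ring

lemma L_re (q : ℝ × ℝ) : (L q).re = 1 / 2 + q.1 := by
  simp [L]

lemma analyticAt_L (q : ℝ × ℝ) : AnalyticAt ℝ L q := by
  have h : L = fun q => 1 / 2 + L' q := funext L_eq
  rw [h]
  exact analyticAt_const.add (L'.analyticAt q)

lemma hasFDerivAt_L (q : ℝ × ℝ) : HasFDerivAt L L' q := by
  have h : L = fun q => 1 / 2 + L' q := funext L_eq
  rw [h]
  exact L'.hasFDerivAt.const_add _

noncomputable def F (q : ℝ × ℝ) : ℝ := (ell (L q)).im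

lemma isOpen_hp : IsOpen {s : ℂ | 1 < s.re} := isOpen_lt continuous_const continuous_re

lemma diff_ell (hg : S_GAM) (hz : S_ZET) : DifferentiableOn ℂ ell {s : ℂ | 1 < s.re} :=
  hg.1.add hz.1

lemma analyticAt_ell (hg : S_GAM) (hz : S_ZET) {s : ℂ} (hs : 1 < s.re) : AnalyticAt ℂ ell s :=
  (diff_ell hg hz).analyticAt (isOpen_hp.mem_nhds hs)

lemma analyticAt_F (hg : S_GAM) (hz : S_ZET) {q : ℝ × ℝ} (hq : 1 / 2 < q.1) :
    AnalyticAt ℝ F q := by
  have hs : 1 < (L q).re := by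
    rw [L_re]
    linarith
  have h1 : AnalyticAt ℝ ell (L q) := (analyticAt_ell hg hz hs).restrictScalars
  have h2 : AnalyticAt ℝ (fun q => ell (L q)) q := h1.comp (analyticAt_L q)
  exact (imCLM.analyticAt _).comp h2

lemma fderiv_F (hg : S_GAM) (hz : S_ZET) {q : ℝ × ℝ} (hq : 1 / 2 < q.1) (v : ℝ × ℝ) :
    fderiv ℝ F q v = (deriv ell (L q) * L' v).im := by
  have hs : 1 < (L q).re := by
    rw [L_re]
    linarith
  have h1 : HasDerivAt ell (deriv ell (L q)) (L q) :=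
    (analyticAt_ell hg hz hs).differentiableAt.hasDerivAt
  have h2 : HasFDerivAt (fun q => ell (L q)) (deriv ell (L q) • L') q :=
    h1.comp_hasFDerivAt q (hasFDerivAt_L q)
  have h3 : HasFDerivAt F (imCLM.comp (deriv ell (L q) • L')) q :=
    imCLM.hasFDerivAt.comp q h2
  rw [h3.fderiv]
  simp

lemma invertible_of_ne {A : ℝ →L[ℝ] ℝ} (h : A 1 ≠ 0) : A.IsInvertible := by
  refine ⟨ContinuousLinearEquiv.unitsEquivAut ℝ (Units.mk0 (A 1) h), ?_⟩
  ext
  simp

lemma GG_eq (hg : S_GAM) (hz : S_ZET) {a t : ℝ} (ha : 1 / 2 < a) :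
    GG (a : ℂ) (t : ℂ) = ((F (a, t) : ℝ) : ℂ) := by
  have hs : 1 < (L (a, t)).re := by
    rw [L_re]
    simp only
    linarith
  have hc : (1 / 2 + (a : ℂ) - I * (t : ℂ)) = (starRingEnd ℂ) (L (a, t)) := by
    have hh : (starRingEnd ℂ) (2 : ℂ) = 2 := conj_ofNat 2
    simp only [L, map_add, map_mul, map_div₀, map_one, hh, conj_ofReal, conj_I]
    ring
  have h1 : ell ((starRingEnd ℂ) (L (a, t))) = (starRingEnd ℂ) (ell (L (a, t))) := by
    unfold ell
    rw [hg.2.2 _ hs, hz.2.2.1 _ hs, map_add]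
  have h2 : (1 / 2 + (a : ℂ) + I * (t : ℂ)) = L (a, t) := rfl
  rw [GG, hc, h1, h2, F, sub_conj]
  push_cast
  field_simp

theorem main (hg : S_GAM) (hz : S_ZET) (hm : S_MON) : S_RAN := by
  intro τ hτ n a0 ha0
  rw [mem_Ioi] at ha0
  obtain ⟨h1, h2, -, -⟩ := hτ
  obtain ⟨ht0, he0⟩ := h1 n a0 ha0
  set u : ℝ × ℝ := (a0, τ n a0) with hu
  have hF0 : F u = yy n := by
    have h := GG_eq hg hz (t := τ n a0) ha0
    rw [he0] at h
    exact_mod_cast h.symm
  have cdf : ContDiffAt ℝ ω F u := (analyticAt_F hg hz (q := u) ha0).contDiffAt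
  have hinv : (fderiv ℝ F u ∘L .inr ℝ ℝ ℝ).IsInvertible := by
    apply invertible_of_ne
    have hs : 1 < (L u).re := by
      rw [L_re]
      simp only [hu]
      linarith
    have hpos := hm (L u) hs
    have e : (fderiv ℝ F u ∘L .inr ℝ ℝ ℝ) 1 = (deriv ell (L u)).re := by
      rw [ContinuousLinearMap.comp_apply, fderiv_F hg hz (q := u) ha0]
      simp [L']
    rw [e]
    exact hpos.ne'
  have hne : (ω : WithTop ℕ∞) ≠ 0 := by simp
  set ψ : ℝ → ℝ := cdf.implicitFunction hne hinv with hψ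
  have hψan : AnalyticAt ℝ ψ a0 := (cdf.contDiffAt_implicitFunction hne hinv).analyticAt
  have hψ0 : ψ a0 = τ n a0 := cdf.implicitFunction_apply_self hne hinv
  have hev : ∀ᶠ x in 𝓝 a0, F (x, ψ x) = F u := cdf.eventually_apply_implicitFunction hne hinv
  have hpos : ∀ᶠ x in 𝓝 a0, 0 < ψ x := by
    apply hψan.continuousAt.eventually_const_lt
    rw [hψ0]
    exact ht0
  have heq : ψ =ᶠ[𝓝 a0] τ n := by
    filter_upwards [hev, hpos, isOpen_Ioi.mem_nhds ha0] with x hx1 hx2 hx3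
    apply h2 n x (ψ x) hx3 hx2
    rw [GG_eq hg hz hx3, hx1, hF0]
  exact hψan.congr heq

end Pool.Agent.W571.AI.RAN
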